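import Pool.Agent.StarF.Main

set_option autoImplicit false

open Finset Pool.Agent.StarF

namespace Pool.Agent.Results.MP_705b7e_co.Diagonal

lemma nat_sizes {k : ℕ} (n : Fin k → ℕ) : ∃ a : ℕ → ℕ, n = fun i : Fin k => a i := by
  refine ⟨fun t => if h : t < k then n ⟨t, h⟩ else 0, ?_⟩
  funext i
  simp

lemma sum_Iic {k : ℕ} (a : ℕ → ℕ) (j : Fin k) :
    ∑ i ∈ Iic j, a i = ∑ t ∈ range (j + 1), a t := by
  have h : (Iic j).map Fin.valEmbedding = range (j + 1) := by
    rw [Fin.map_valEmbedding_Iic]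
    ext t
    simp
  rw [← h, Finset.sum_map]
  rfl

/-- The upper bound. -/
lemma upper (k : ℕ) (hk : 1 ≤ k) (a : ℕ → ℕ) : ∃ N : ℕ,
    N + 2 ≤ (univ.sup fun j : Fin k => a j + ∑ i ∈ Iic j, a i) + 3 * k ∧
    ∀ G : SimpleGraph (Fin N), (starForest (fun i : Fin k => a i)).IsContained G ∨
      (starForest (fun i : Fin k => a i)).IsContained Gᶜ := by
  set M := univ.sup fun j : Fin k => a j + ∑ i ∈ Iic j, a i with hM
  have hMj : ∀ j, j < k → a j + ∑ t ∈ range (j + 1), a t ≤ M := by
    intro j hj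
    have h1 := Finset.le_sup (f := fun j : Fin k => a j + ∑ i ∈ Iic j, a i) (mem_univ ⟨j, hj⟩)
    rw [← hM] at h1
    simp only at h1
    rwa [sum_Iic] at h1
  refine ⟨M + 3 * k - 2, by omega, ?_⟩
  · intro G
    have : Nonempty (Fin (M + 3 * k - 2)) := ⟨⟨0, by omega⟩⟩
    by_contra hcon
    rw [not_or] at hcon
    obtain ⟨i, hi, j, hj, h⟩ := general G k k a a (1 / 2) (by norm_num) (by norm_num) hcon.1 hcon.2
    have hcard : ((Fintype.card (Fin (M + 3 * k - 2)) : ℕ) : ℝ) = M + 3 * k - 2 := by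
      rw [Fintype.card_fin, Nat.cast_sub (by omega)]
      push_cast
      ring
    rw [hcard] at h
    have key : ∀ i j : ℕ, i < k → j < k → ¬ ((1 / 2 : ℝ) *
        ((M : ℝ) + 3 * k - 2 - i - j - ∑ t ∈ range i, (a t : ℝ)) ≤
        a i + ((k - (i + 1) : ℕ) : ℝ)) := by
      intro i j hi hj hle
      have h1 : ((a i + ∑ t ∈ range (i + 1), a t : ℕ) : ℝ) ≤ M := by exact_mod_cast hMj i hi
      rw [Finset.sum_range_succ] at h1
      push_cast at h1
      rw [Nat.cast_sub (by omega)] at hle
      push_cast at hle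
      have h2 : (j : ℝ) + 1 ≤ k := by exact_mod_cast hj
      have h3 : (0 : ℝ) ≤ i := Nat.cast_nonneg i
      linarith
    rcases h with h | h
    · exact key i j hi hj h
    · apply key j i hj hi
      have e1 : (1 - 1 / 2 : ℝ) = 1 / 2 := by norm_num
      rw [e1] at h
      linarith

/-- The ground for the lower bounds. -/
lemma lower_of {α : Type} (F : SimpleGraph α) (m : ℕ) (hne : ∃ N : ℕ, ∀ G : SimpleGraph (Fin N),
      F.IsContained G ∨ F.IsContained Gᶜ)
    (h : ∀ N : ℕ, N < m → ∃ G : SimpleGraph (Fin N), ¬ F.IsContained G ∧ ¬ F.IsContained Gᶜ) :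
    m ≤ ramsey F F := by
  unfold ramsey
  apply le_csInf hne
  intro N hN
  by_contra hlt
  push Not at hlt
  obtain ⟨G, h1, h2⟩ := h N hlt
  rcases hN G with h3 | h3
  · exact h1 h3
  · exact h2 h3

/-- The first lower bound. -/
lemma lower1 {k : ℕ} (n : Fin k → ℕ) (hn : Antitone n) (hpos : ∀ i, 1 ≤ n i) (j : Fin k) (N : ℕ)
    (hN : N + 2 ≤ n j + ∑ i ∈ Iic j, n i) :
    ∃ G : SimpleGraph (Fin N), ¬ (starForest n).IsContained G ∧ ¬ (starForest n).IsContained Gᶜ := by
  classical
  let G : SimpleGraph (Fin N) :=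
    { Adj := fun u v => ((u : ℕ) < n j - 1 ∧ ¬ ((v : ℕ) < n j - 1)) ∨
        (¬ ((u : ℕ) < n j - 1) ∧ (v : ℕ) < n j - 1)
      symm := ⟨by
        rintro u v (h | h)
        · exact Or.inr ⟨h.2, h.1⟩
        · exact Or.inl ⟨h.2, h.1⟩⟩
      loopless := ⟨by
        rintro u (h | h)
        · exact h.2 h.1
        · exact h.1 h.2⟩ }
  have hpj := hpos j
  -- no family of leaves
  have key : ∀ f : (Σ i : Fin k, Fin (n i)) → Fin N, Function.Injective f →
      (∀ i, (∀ x, ((f ⟨i, x⟩ : Fin N) : ℕ) < n j - 1) ∨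
        (∀ x, ¬ ((f ⟨i, x⟩ : Fin N) : ℕ) < n j - 1)) → False := by
    intro f hf h
    have h1 : ∀ i, i ≤ j → ∀ x, ¬ ((f ⟨i, x⟩ : Fin N) : ℕ) < n j - 1 := by
      intro i hij
      rcases h i with h2 | h2
      · exfalso
        have hle : n j ≤ n i := hn hij
        let g : Fin (n i) → Fin (n j - 1) := fun x => ⟨f ⟨i, x⟩, h2 x⟩
        have hg : Function.Injective g := by
          intro x y hxy
          have h3 : f ⟨i, x⟩ = f ⟨i, y⟩ := by
            apply Fin.ext
            exact congrArg (fun z : Fin (n j - 1) => (z : ℕ)) hxy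
          have h4 := hf h3
          rw [Sigma.mk.injEq] at h4
          exact eq_of_heq h4.2
        have := Fintype.card_le_of_injective g hg
        rw [Fintype.card_fin, Fintype.card_fin] at this
        omega
      · exact h2
    -- the leaves of the first stars
    let s : Finset (Σ i : Fin k, Fin (n i)) := (Iic j).sigma fun i => univ
    have hs : s.card = ∑ i ∈ Iic j, n i := by
      rw [Finset.card_sigma]
      simp
    have hle : s.card ≤ ((univ : Finset (Fin N)).filter fun v : Fin N => ¬ (v : ℕ) < n j - 1).card := by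
      rw [← Finset.card_image_of_injective s hf]
      apply card_le_card
      intro v hv
      rw [mem_image] at hv
      obtain ⟨⟨i, x⟩, hx, rfl⟩ := hv
      rw [mem_filter]
      refine ⟨mem_univ _, h1 i ?_ x⟩
      have := (Finset.mem_sigma.1 hx).1
      rwa [mem_Iic] at this
    have hcard : ((univ : Finset (Fin N)).filter fun v : Fin N => ¬ (v : ℕ) < n j - 1).card ≤
        N - (n j - 1) := by
      have h3 : ((univ : Finset (Fin N)).filter fun v : Fin N => ¬ (v : ℕ) < n j - 1).card ≤
          (Finset.Ico (n j - 1) N).card := by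
        apply Finset.card_le_card_of_injOn (fun v : Fin N => (v : ℕ))
        · intro v hv
          rw [coe_filter, Set.mem_ofPred_eq] at hv
          rw [coe_Ico, Set.mem_Ico]
          have := v.2
          show n j - 1 ≤ (v : ℕ) ∧ (v : ℕ) < N
          omega
        · intro u _ v _ huv
          exact Fin.ext huv
      rwa [Nat.card_Ico] at h3
    rw [hs] at hle
    have hSj : n j ≤ ∑ i ∈ Iic j, n i :=
      Finset.single_le_sum (f := n) (fun i _ => Nat.zero_le _) (mem_Iic.2 le_rfl)
    omega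
  refine ⟨G, ?_, ?_⟩
  · intro hcont
    obtain ⟨c, f, hf, hadj⟩ := of_contained hcont
    apply key f hf
    intro i
    by_cases hci : ((c i : Fin N) : ℕ) < n j - 1
    · right
      intro x
      rcases hadj ⟨i, x⟩ with h | h
      · exact h.2
      · exact absurd hci h.1
    · left
      intro x
      rcases hadj ⟨i, x⟩ with h | h
      · exact absurd h.1 hci
      · exact h.2
  · intro hcont
    obtain ⟨c, f, hf, hadj⟩ := of_contained hcont
    apply key f hf
    intro i
    by_cases hci : ((c i : Fin N) : ℕ) < n j - 1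
    · left
      intro x
      by_contra hx
      exact ((G.compl_adj _ _).1 (hadj ⟨i, x⟩)).2 (Or.inl ⟨hci, hx⟩)
    · right
      intro x hx
      exact ((G.compl_adj _ _).1 (hadj ⟨i, x⟩)).2 (Or.inr ⟨hci, hx⟩)

/-- The second lower bound. -/
lemma lower2 {k : ℕ} (n : Fin k → ℕ) (hpos : ∀ i, 1 ≤ n i) (N : ℕ)
    (hN : N + 2 ≤ ∑ i, n i + 2 * k) :
    ∃ G : SimpleGraph (Fin N), ¬ (starForest n).IsContained G ∧ ¬ (starForest n).IsContained Gᶜ := by
  classical
  let G : SimpleGraph (Fin N) :=
    { Adj := fun u v => u ≠ v ∧ ((u : ℕ) < k - 1 ∨ (v : ℕ) < k - 1)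
      symm := ⟨fun u v h => ⟨h.1.symm, h.2.symm⟩⟩
      loopless := ⟨fun u h => h.1 rfl⟩ }
  have hadj : ∀ (i : Fin k) (x : Fin (n i)), (starForest n).Adj ⟨i, none⟩ ⟨i, some x⟩ :=
    fun i x => ⟨rfl, Or.inl ⟨rfl, by simp⟩⟩
  refine ⟨G, ?_, ?_⟩
  · rintro ⟨φ⟩
    -- an endpoint of an edge of each star
    have h1 : ∀ i : Fin k, ∃ u : Option (Fin (n i)), ((φ ⟨i, u⟩ : Fin N) : ℕ) < k - 1 := by
      intro i
      have h2 := φ.toHom.map_adj (hadj i ⟨0, hpos i⟩)
      rcases h2.2 with h | h
      · exact ⟨none, h⟩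
      · exact ⟨_, h⟩
    choose e he using h1
    let g : Fin k → Fin (k - 1) := fun i => ⟨φ ⟨i, e i⟩, he i⟩
    have hg : Function.Injective g := by
      intro i j hij
      have h3 : φ ⟨i, e i⟩ = φ ⟨j, e j⟩ := by
        apply Fin.ext
        exact congrArg (fun z : Fin (k - 1) => (z : ℕ)) hij
      have h4 := φ.injective h3
      rw [Sigma.mk.injEq] at h4
      exact h4.1
    have h5 := Fintype.card_le_of_injective g hg
    rw [Fintype.card_fin, Fintype.card_fin] at h5
    rcases Nat.eq_zero_or_pos k with hk | hk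
    · subst hk
      simp at hN
    · omega
  · rintro ⟨φ⟩
    have h1 : ∀ u : (Σ i : Fin k, Option (Fin (n i))), ¬ ((φ u : Fin N) : ℕ) < k - 1 := by
      have h2 : ∀ (i : Fin k) (x : Fin (n i)), ¬ ((φ ⟨i, none⟩ : Fin N) : ℕ) < k - 1 ∧
          ¬ ((φ ⟨i, some x⟩ : Fin N) : ℕ) < k - 1 := by
        intro i x
        have h3 := (G.compl_adj _ _).1 (φ.toHom.map_adj (hadj i x))
        constructor
        · intro h
          exact h3.2 ⟨h3.1, Or.inl h⟩
        · intro h
          exact h3.2 ⟨h3.1, Or.inr h⟩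
      rintro ⟨i, u⟩
      cases u with
      | none => exact (h2 i ⟨0, hpos i⟩).1
      | some x => exact (h2 i x).2
    let g : (Σ i : Fin k, Option (Fin (n i))) → Fin (N - (k - 1)) := fun u =>
      ⟨(φ u : Fin N) - (k - 1), by
        have := h1 u
        have := (φ u).2
        omega⟩
    have hg : Function.Injective g := by
      intro u v huv
      apply φ.injective
      have h3 : ((φ u : Fin N) : ℕ) - (k - 1) = ((φ v : Fin N) : ℕ) - (k - 1) :=
        congrArg (fun z : Fin (N - (k - 1)) => (z : ℕ)) huv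
      have h4 := h1 u
      have h5 := h1 v
      apply Fin.ext
      show ((φ u : Fin N) : ℕ) = ((φ v : Fin N) : ℕ)
      omega
    have h5 := Fintype.card_le_of_injective g hg
    rw [Fintype.card_fin, Fintype.card_sigma] at h5
    simp only [Fintype.card_option, Fintype.card_fin, Finset.sum_add_distrib, Finset.sum_const,
      card_univ, smul_eq_mul, mul_one] at h5
    rcases Nat.eq_zero_or_pos k with hk | hk
    · subst hk
      simp at hN
    · omega

/-- **Diagonal Ramsey numbers of star forests.** -/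
theorem result (k : ℕ) (hk : 1 ≤ k) (n : Fin k → ℕ) (hn : Antitone n) (hpos : ∀ i, 1 ≤ n i) :
    (univ.sup fun j : Fin k => n j + ∑ i ∈ Iic j, n i) ≤
      ramsey (starForest n) (starForest n) + 1 ∧
    ∑ i, n i + 2 * k ≤ ramsey (starForest n) (starForest n) + 1 ∧
    ramsey (starForest n) (starForest n) + 2 ≤
      (univ.sup fun j : Fin k => n j + ∑ i ∈ Iic j, n i) + 3 * k := by
  obtain ⟨a, rfl⟩ := nat_sizes n
  obtain ⟨N0, hN0, hmem⟩ := upper k hk a
  have hne : ∃ N : ℕ, ∀ G : SimpleGraph (Fin N),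
      (starForest (fun i : Fin k => a i)).IsContained G ∨
        (starForest (fun i : Fin k => a i)).IsContained Gᶜ := ⟨N0, hmem⟩
  have hup : ramsey (starForest (fun i : Fin k => a i)) (starForest (fun i : Fin k => a i)) ≤ N0 :=
    Nat.sInf_le hmem
  refine ⟨?_, ?_, by simp only; omega⟩
  · apply Finset.sup_le
    intro j _
    by_contra hlt
    push Not at hlt
    have h1 := lower_of (starForest (fun i : Fin k => a i)) (a j + ∑ i ∈ Iic j, a i - 1) hne ?_
    · simp only at hlt
      omega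
    · intro N hN
      apply lower1 (fun i : Fin k => a i) hn hpos j N
      show N + 2 ≤ a j + ∑ i ∈ Iic j, a i
      omega
  · have h1 := lower_of (starForest (fun i : Fin k => a i)) (∑ i : Fin k, a i + 2 * k - 1) hne ?_
    · simp only
      omega
    · intro N hN
      apply lower2 (fun i : Fin k => a i) hpos N
      show N + 2 ≤ ∑ i : Fin k, a i + 2 * k
      omega

end Pool.Agent.Results.MP_705b7e_co.Diagonal
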