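import Pool.Agent.SFJ.All
import Pool.Agent.SFI.All

set_option autoImplicit false

open Finset Pool.Agent.StarF

namespace Pool.Agent.Results.MP_705b7e_co.ExactDiagonal

/-- The two block colouring with the blocks `X` and `Y` of sizes `x` and `y` (red inside `X` and
inside `Y`, blue between them) in which the edges of a graph on `X` with all degrees `c` (one
degree `c + 1` if `x` and `c` are odd) are recoloured blue contains the star forest: for some set
`A` of stars, either (red) the stars of `A` are in `X` and the others in `Y`; or (blue) the stars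
of `A` have their centres in `Y` and their leaves in `X`, the others have their centres in `X` and
all but `z` of their leaves in `Y`. -/
def Fits {k : ℕ} (n : Fin k → ℕ) (x y c : ℕ) : Prop :=
  ∃ A : Finset (Fin k),
    (∑ i ∈ A, n i + A.card ≤ x ∧ ∑ i ∈ Aᶜ, n i + (Aᶜ).card ≤ y ∧
      (A.card = 1 → ∑ i ∈ A, n i + 1 + c ≤ x)) ∨
    ∃ z : ℕ, z ≤ (Aᶜ).card * c + x * c % 2 ∧ (Aᶜ = ∅ → z = 0) ∧
      ∑ i ∈ A, n i + (Aᶜ).card + z ≤ x ∧ ∑ i ∈ Aᶜ, n i + A.card ≤ y + z

/-- The least `N` such that `Fits n x y c` for all `x + y = N` and `c ≤ k - 2` (and `c < x` or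
`c = 0`). -/
noncomputable def blocks {k : ℕ} (n : Fin k → ℕ) : ℕ :=
  sInf {N : ℕ | ∀ x y c : ℕ, x + y = N → c + 1 < k → (c < x ∨ c = 0) → Fits n x y c}

/-- `M_j = n_1 + .. + n_j + n_j`. -/
def M {k : ℕ} (n : Fin k → ℕ) (j : Fin k) : ℕ := n j + ∑ i ∈ Iic j, n i

/-- The number `v_j`, where `m` is the size of the star `j` (numbered from 0, so that `j + 1` is
the `j` of the claim). -/
def v (k j m : ℕ) : ℕ :=
  if k < 2 * (j + 1) then k - (j + 1)
  else j - 1 + k / (j + 1) -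
    (if k % (j + 1) = 0 ∧ k / (j + 1) % 2 = 1 ∧ m % 2 = 0 then 1 else 0)

/-- The number `w_j(p)`. -/
def w (k j p : ℕ) : ℕ := min (p + 1) (k - 1 - p) + min (j + 1 - p) (p + (k - 1 - j)) - 1

/-- No subset sum is strictly between `s(P) + n_{j+1} + .. + n_k` and `s(P) + n_j`. -/
def Free {k : ℕ} (n : Fin k → ℕ) (j : Fin k) (P : Finset (Fin k)) : Prop :=
  ∀ A : Finset (Fin k), ¬ (∑ i ∈ P, n i + ∑ i ∈ Ioi j, n i < ∑ i ∈ A, n i ∧
    ∑ i ∈ A, n i < ∑ i ∈ P, n i + n j)

open Classical in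
/-- The maximum of `w_j(|P|)` over the nonempty proper subsets `P` of the set of the stars before
`j` with `Free n j P` (0 if there is none). -/
noncomputable def wmax {k : ℕ} (n : Fin k → ℕ) (j : Fin k) : ℕ :=
  ((univ : Finset (Finset (Fin k))).filter
    (fun P => P ⊂ Iio j ∧ P.Nonempty ∧ Free n j P)).sup (fun P => w k j P.card)

/-- Different subset sums of the sizes differ by more than `5 k ^ 2`. -/
def Generic {k : ℕ} (n : Fin k → ℕ) : Prop :=
  ∀ A B : Finset (Fin k), A ≠ B → ∑ i ∈ A, n i ≤ ∑ i ∈ B, n i →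
    ∑ i ∈ A, n i + 5 * k ^ 2 < ∑ i ∈ B, n i

/-- `1` if `k` is odd and `m` is even, otherwise `0`. -/
def t (k m : ℕ) : ℕ := if k % 2 = 1 ∧ m % 2 = 0 then 1 else 0

/-- **Diagonal Ramsey numbers of star forests with large stars**: exact if some `M_j` is larger
than `M_1 = 2 n_1`, almost exact if `M_1` is larger than the other `M_j`. -/
theorem result (k : ℕ) (hk : 2 ≤ k) :
    ∃ C : ℕ, ∀ n : Fin k → ℕ, Antitone n → (∀ i, C ≤ n i) →
      ((∃ j, 2 * n ⟨0, by omega⟩ + C ≤ M n j) →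
        ramsey (starForest n) (starForest n) = blocks n ∧
        ((∀ j, M n j ≤ ramsey (starForest n) (starForest n)) ∧
          ∃ j, ramsey (starForest n) (starForest n) ≤ M n j + (k - 1)) ∧
        (Generic n → ramsey (starForest n) (starForest n) =
          (univ.filter (fun j : Fin k => 0 < (j : ℕ))).sup
            (fun j => M n j + max (v k j (n j)) (wmax n j))) ∧
        (∀ h : k = 3, ramsey (starForest n) (starForest n) =
          max (n ⟨0, by omega⟩ + 2 * n ⟨1, by omega⟩ + 1)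
            (n ⟨0, by omega⟩ + n ⟨1, by omega⟩ + 2 * n ⟨2, by omega⟩ +
              (if n ⟨0, by omega⟩ = n ⟨1, by omega⟩ ∨
                n ⟨1, by omega⟩ + n ⟨2, by omega⟩ ≤ n ⟨0, by omega⟩ then 1 else 0))) ∧
        ((∀ i j, n i = n j) → ∀ j, ramsey (starForest n) (starForest n) =
          (k + 1) * n j + k - 2)) ∧
      ((∀ j : Fin k, 0 < (j : ℕ) → M n j + C ≤ 2 * n ⟨0, by omega⟩) →
        2 * n ⟨0, by omega⟩ + k ≤
          ramsey (starForest n) (starForest n) + 1 + t k (n ⟨0, by omega⟩) ∧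
        (∀ p, p + 2 ≤ k → (p ≤ 1 ∨ n ⟨1, by omega⟩ +
            2 * ∑ i ∈ univ.filter (fun i : Fin k => 2 ≤ (i : ℕ) ∧ (i : ℕ) < p + 2), n i + C ≤
            n ⟨0, by omega⟩) →
          ramsey (starForest n) (starForest n) + p + 3 ≤ 2 * n ⟨0, by omega⟩ + 2 * k) ∧
        (2 * ∑ i ∈ univ.filter (fun i : Fin k => 0 < (i : ℕ)), n i + C ≤ n ⟨0, by omega⟩ →
          ramsey (starForest n) (starForest n) + 1 + t k (n ⟨0, by omega⟩) =
            2 * n ⟨0, by omega⟩ + k)) := by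
  obtain ⟨n₀, hn₀⟩ := Pool.Agent.SFJ.all_final k hk
  refine ⟨n₀ + 20000 * k ^ 2, fun n hanti hbig => ⟨fun hM => ?_, fun hdom => ?_⟩⟩
  · obtain ⟨j, hj⟩ := hM
    refine hn₀ n hanti (fun i => le_trans (Nat.le_add_right _ _) (hbig i)) ⟨j, ?_⟩
    have h1 : 2 * n ⟨0, by omega⟩ + n₀ ≤ 2 * n ⟨0, by omega⟩ + (n₀ + 20000 * k ^ 2) :=
      Nat.add_le_add_left (Nat.le_add_right _ _) _
    exact h1.trans hj
  · exact Pool.Agent.SFI.final Pool.Agent.SFI.a_NRG Pool.Agent.SFI.a_UPC Pool.Agent.SFI.a_UPF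
      Pool.Agent.SFI.a_LWD k hk (n₀ + 20000 * k ^ 2) (Nat.le_add_left _ _) n hanti hbig hdom

end Pool.Agent.Results.MP_705b7e_co.ExactDiagonal
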