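import Pool.Agent.StarF2.LargeMain

set_option autoImplicit false

open Finset Pool.Agent.StarF Pool.Agent.StarF2

namespace Pool.Agent.Results.MP_705b7e_co.LargeSecond

/-- The maximum of `a i + i`, `i = 0, ..., k - 1`. -/
def peak {k : ℕ} (a : Fin k → ℕ) : ℕ := univ.sup fun i : Fin k => a i + i

open Classical in
/-- The value of the Ramsey number: `a`, `b` are the non-increasing sizes of the stars, `b₀` the
largest and `b₁` the smallest size in `b`. The condition `Fit x b₀ l b₁` says: if `b₁ = 1` then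
`b₀ + l ≡ 2` modulo `x`; if `b₁ = 2` then `x` is odd or `b₀ + l ≡ 2` modulo `x`; if `3 ≤ b₁` then
`x` is odd or `b₀ + l` is even. -/
noncomputable def value (k l : ℕ) (a : Fin k → ℕ) (b : Fin l → ℕ) (b₀ b₁ : ℕ) : ℕ :=
  if peak a + b₀ ≤ ∑ j, b j + k then l + ∑ j, b j + k - 1
  else if ∃ i : Fin k, a i + i = peak a ∧ Fit (a i) b₀ l b₁ then b₀ + peak a + l - 1
  else b₀ + peak a + l - 2

/-- **Ramsey numbers of pairs of star forests, one much larger than the other.** -/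
theorem result (k l : ℕ) (hk : 0 < k) (hl : 0 < l) (a : Fin k → ℕ) (b : Fin l → ℕ)
    (ha : Antitone a) (hb : Antitone b) (ha1 : ∀ i, 1 ≤ a i) (hb1 : ∀ j, 1 ≤ b j)
    (hbig : 2 * (k + ∑ i, a i) ≤ l ∨ 2 * (k + ∑ i, a i) ^ 3 ≤ l + ∑ j, b j) :
    ramsey (starForest a) (starForest b) =
      value k l a b (b ⟨0, hl⟩) (b ⟨l - 1, Nat.sub_lt hl Nat.one_pos⟩) := by
  have nat_sizes : ∀ {k : ℕ} (n : Fin k → ℕ), ∃ a : ℕ → ℕ, n = fun i : Fin k => a i := by
    intro k n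
    refine ⟨fun t => if h : t < k then n ⟨t, h⟩ else 0, ?_⟩
    funext i
    simp
  obtain ⟨a, rfl⟩ := nat_sizes a
  obtain ⟨b, rfl⟩ := nat_sizes b
  rw [Fin.sum_univ_eq_sum_range, Fin.sum_univ_eq_sum_range] at hbig
  have hm : ∀ t < k, a t + t ≤ peak (fun i : Fin k => a i) := fun t ht =>
    Finset.le_sup (f := fun i : Fin k => a i + i) (mem_univ ⟨t, ht⟩)
  have hm2 : ∃ t < k, a t + t = peak (fun i : Fin k => a i) := by
    have : Nonempty (Fin k) := ⟨⟨0, hk⟩⟩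
    obtain ⟨i, -, hi⟩ := Finset.exists_mem_eq_sup (univ : Finset (Fin k)) univ_nonempty
      (fun i : Fin k => a i + i)
    exact ⟨i, i.2, hi.symm⟩
  have hb0 : b 0 ≤ ∑ t ∈ range l, b t :=
    Finset.single_le_sum (f := b) (fun _ _ => Nat.zero_le _) (mem_range.2 hl)
  obtain ⟨beta, hbeta⟩ : ∃ beta, b 0 + beta = ∑ t ∈ range l, b t :=
    ⟨∑ t ∈ range l, b t - b 0, by omega⟩
  have hk1 := ha1 ⟨0, hk⟩
  have hb01 := hb1 ⟨0, hl⟩
  simp only at hk1 hb01
  have key := large_main k l hk hl a b (fun s t hst ht => ha (a := ⟨s, by omega⟩) (b := ⟨t, ht⟩) hst)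
    (fun s t hst ht => hb (a := ⟨s, by omega⟩) (b := ⟨t, ht⟩) hst) (fun t ht => ha1 ⟨t, ht⟩)
    (fun t ht => hb1 ⟨t, ht⟩) _ beta (peak (fun i : Fin k => a i)) rfl hbeta hm hm2 hbig
  have hp1 := hm 0 hk
  unfold value
  rw [Fin.sum_univ_eq_sum_range]
  simp only
  have hex : (∃ i : Fin k, a i + i = peak (fun i : Fin k => a i) ∧ Fit (a i) (b 0) l (b (l - 1))) ↔
      ∃ t < k, a t + t = peak (fun i : Fin k => a i) ∧ Fit (a t) (b 0) l (b (l - 1)) := by
    constructor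
    · rintro ⟨i, h1, h2⟩
      exact ⟨i, i.2, h1, h2⟩
    · rintro ⟨t, ht, h1, h2⟩
      exact ⟨⟨t, ht⟩, h1, h2⟩
  by_cases h1 : peak (fun i : Fin k => a i) + b 0 ≤ ∑ t ∈ range l, b t + k
  · rw [if_pos h1]
    have h2 := key.1 (by omega)
    omega
  · rw [if_neg h1]
    have h2 := key.2 (by omega)
    by_cases h3 : ∃ i : Fin k, a i + i = peak (fun i : Fin k => a i) ∧
        Fit (a i) (b 0) l (b (l - 1))
    · rw [if_pos h3]
      have h4 := h2.1 (hex.1 h3)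
      omega
    · rw [if_neg h3]
      have h4 := h2.2 (fun h => h3 (hex.2 h))
      omega

end Pool.Agent.Results.MP_705b7e_co.LargeSecond
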