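import Pool.Agent.StarM.Final

set_option autoImplicit false

open Finset Pool.Agent.StarF Pool.Agent.StarM

namespace Pool.Agent.Results.MP_705b7e_co.SmallStars

/-- **Ramsey numbers of star forests with small stars.** If all stars of both forests have at most
`D` edges and one of the forests has at least `96 D^4 (D+1)^4` edges, then the Ramsey number is
the sum of the numbers of stars, minus one, plus the larger number of edges. -/
theorem result (D k l : ℕ) (hk : 1 ≤ k) (hl : 1 ≤ l) (a : Fin k → ℕ) (b : Fin l → ℕ)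
    (ha : ∀ i, 1 ≤ a i ∧ a i ≤ D) (hb : ∀ j, 1 ≤ b j ∧ b j ≤ D)
    (hbig : 96 * D ^ 4 * (D + 1) ^ 4 ≤ max (∑ i, a i) (∑ j, b j)) :
    ramsey (starForest a) (starForest b) = k + l - 1 + max (∑ i, a i) (∑ j, b j) := by
  have nat_sizes : ∀ {k : ℕ} (n : Fin k → ℕ), ∃ a : ℕ → ℕ, n = fun i : Fin k => a i := by
    intro k n
    refine ⟨fun t => if h : t < k then n ⟨t, h⟩ else 0, ?_⟩
    funext i
    simp
  obtain ⟨a, rfl⟩ := nat_sizes a
  obtain ⟨b, rfl⟩ := nat_sizes b
  rw [Fin.sum_univ_eq_sum_range, Fin.sum_univ_eq_sum_range] at hbig ⊢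
  have h := exact_value D k l hk hl a b (fun t ht => ha ⟨t, ht⟩) (fun t ht => hb ⟨t, ht⟩) hbig
  omega

end Pool.Agent.Results.MP_705b7e_co.SmallStars
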